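import Mathlib
import Pool.Agent.R844.MatLat

/-!
# MP_62b2e8_nt : matrix lattices of rank `2 m n` with non-vanishing `Δ_m`

If `n ≥ m ≥ 1` and there is a matrix lattice `L ⊂ M_n(ℂ)` of rank `2 m n` with `Δ_m(L) ≠ 0`,
then `m = n`, or `n = 2` and `m = 1`.
-/

set_option autoImplicit false

namespace Pool.Agent.Results.MP_62b2e8_nt.RankLattices

/-- `λ_i(X)`: the `i`-th smallest singular value of the complex `n × n` matrix `X`, for
`1 ≤ i ≤ n`.  (Mathlib's `LinearMap.singularValues` lists the singular values in decreasing order,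
starting from the index `0`.) -/
noncomputable def singVal {n : ℕ} (X : Matrix (Fin n) (Fin n) ℂ) (i : ℕ) : ℝ :=
  (Matrix.toEuclideanLin X).singularValues (n - i)

/-- `Δ_s(X)`: the product of the squares of the `s` smallest singular values. -/
noncomputable def Delta {n : ℕ} (s : ℕ) (X : Matrix (Fin n) (Fin n) ℂ) : ℝ :=
  ∏ i ∈ Finset.Icc 1 s, singVal X i ^ 2

/-- `L` is a matrix lattice of rank `k` in `M_n(ℂ)`: the set of the integer linear combinations of
`k` matrices which are linearly independent over `ℝ`. -/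
def IsMatrixLattice (n k : ℕ) (L : Set (Matrix (Fin n) (Fin n) ℂ)) : Prop :=
  ∃ B : Fin k → Matrix (Fin n) (Fin n) ℂ, LinearIndependent ℝ B ∧
    L = {X | ∃ z : Fin k → ℤ, X = ∑ i, z i • B i}

/-- `Δ_s(L)`: the infimum of `Δ_s(X)` over the nonzero `X ∈ L`. -/
noncomputable def DeltaLattice {n : ℕ} (s : ℕ) (L : Set (Matrix (Fin n) (Fin n) ℂ)) : ℝ :=
  sInf (Delta s '' (L \ {0}))

open Module Pool.Agent.R844.MatLat

lemma Delta_nonneg {n : ℕ} (s : ℕ) (X : Matrix (Fin n) (Fin n) ℂ) : 0 ≤ Delta s X :=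
  Finset.prod_nonneg fun _ _ => sq_nonneg _

lemma Delta_le {n m : ℕ} (hm : 1 ≤ m) (X : Matrix (Fin n) (Fin n) ℂ) {δ : ℝ}
    (h0 : 0 < δ) (h1 : δ ≤ 1) (h : singVal X m ≤ δ) : Delta m X ≤ δ := by
  have h2 : Delta m X ≤ ∏ i ∈ Finset.Icc 1 m, δ ^ 2 := by
    refine Finset.prod_le_prod (fun _ _ => sq_nonneg _) fun i hi => ?_
    have hi' := Finset.mem_Icc.1 hi
    have h3 : singVal X i ≤ singVal X m :=
      (Matrix.toEuclideanLin X).singularValues_antitone (by omega)
    have h4 : 0 ≤ singVal X i := LinearMap.singularValues_nonneg _ _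
    exact pow_le_pow_left₀ h4 (h3.trans h) 2
  rw [Finset.prod_const, Nat.card_Icc, Nat.add_sub_cancel] at h2
  have h3 : (δ ^ 2) ^ m ≤ δ := by
    rw [← pow_mul]
    calc δ ^ (2 * m) ≤ δ ^ 1 := pow_le_pow_of_le_one h0.le h1 (by omega)
      _ = δ := pow_one δ
  exact h2.trans h3

/-- If `Δ_m(L) ≠ 0` then every nonzero element of the real span of the lattice has a kernel of
dimension less than `m`. -/
lemma finrank_ker_lt {n m k : ℕ} (hm : 1 ≤ m) (hmn : m ≤ n)
    (B : Fin k → Matrix (Fin n) (Fin n) ℂ) (hB : LinearIndependent ℝ B)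
    (h : DeltaLattice m {X : Matrix (Fin n) (Fin n) ℂ | ∃ z : Fin k → ℤ, X = ∑ i, z i • B i} ≠ 0)
    (c : Fin k → ℝ) (hc : c ≠ 0) :
    finrank ℂ (LinearMap.ker (Matrix.toEuclideanLin (comb B c))) < m := by
  by_contra hcon
  push Not at hcon
  apply h
  have hv : ∑ i, c i • B i ≠ 0 := by
    intro h0
    apply hc
    funext i
    exact Fintype.linearIndependent_iff.1 hB c h0 i
  have hbdd : BddBelow (Delta m ''
      ({X : Matrix (Fin n) (Fin n) ℂ | ∃ z : Fin k → ℤ, X = ∑ i, z i • B i} \ {0})) := by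
    refine ⟨0, ?_⟩
    rintro _ ⟨X, -, rfl⟩
    exact Delta_nonneg m X
  have hle : ∀ δ : ℝ, 0 < δ → δ ≤ 1 → DeltaLattice m
      {X : Matrix (Fin n) (Fin n) ℂ | ∃ z : Fin k → ℤ, X = ∑ i, z i • B i} ≤ δ := by
    intro δ hδ hδ1
    obtain ⟨t, ht, z, hz0, hz⟩ := exists_lattice_point B c hv hδ
    have h1 : singVal (∑ i, z i • B i) m ≤ δ := by
      refine sv_le (Matrix.toEuclideanLin (∑ i, z i • B i))
        (Matrix.toEuclideanLin ((t : ℂ) • ∑ i, c i • B i)) finrank_euclideanSpace_fin hm hmn ?_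
        hδ.le ?_
      · refine hcon.trans (Submodule.finrank_mono ?_)
        intro x hx
        rw [LinearMap.mem_ker, comb_apply] at hx
        rw [LinearMap.mem_ker, map_smul, LinearMap.smul_apply, hx, smul_zero]
      · intro x
        have h2 := (op n (∑ i, z i • B i - (t : ℂ) • ∑ i, c i • B i)).le_of_opNorm_le hz x
        rw [op_apply, map_sub] at h2
        exact h2
    refine (csInf_le hbdd ⟨∑ i, z i • B i, ⟨⟨z, rfl⟩, hz0⟩, rfl⟩).trans ?_
    exact Delta_le hm _ hδ hδ1 h1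
  have hnonneg : 0 ≤ DeltaLattice m
      {X : Matrix (Fin n) (Fin n) ℂ | ∃ z : Fin k → ℤ, X = ∑ i, z i • B i} := by
    refine Real.sInf_nonneg ?_
    rintro _ ⟨X, -, rfl⟩
    exact Delta_nonneg m X
  refine le_antisymm ?_ hnonneg
  refine le_of_forall_pos_le_add fun δ hδ => ?_
  rw [zero_add]
  exact (hle (min δ 1) (lt_min hδ one_pos) (min_le_right _ _)).trans (min_le_left _ _)

/-- Let `n ≥ m ≥ 1`.  If there is a matrix lattice `L ⊂ M_n(ℂ)` of rank `2 m n` with
`Δ_m(L) ≠ 0`, then either `m = n`, or `n = 2` and `m = 1`. -/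
theorem result (n m : ℕ) (hm : 1 ≤ m) (hmn : m ≤ n)
    (L : Set (Matrix (Fin n) (Fin n) ℂ)) (hL : IsMatrixLattice n (2 * m * n) L)
    (hΔ : DeltaLattice m L ≠ 0) : m = n ∨ (n = 2 ∧ m = 1) := by
  obtain ⟨B, hB, rfl⟩ := hL
  have hker := finrank_ker_lt hm hmn B hB hΔ
  by_contra hcon
  push Not at hcon
  obtain ⟨h1, h2⟩ := hcon
  have hlt : m < n := lt_of_le_of_ne hmn h1
  rcases Nat.lt_or_ge m 2 with hm2 | hm2
  · have hm1 : m = 1 := by omega
    subst hm1
    have hn3 : 3 ≤ n := by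
      by_contra hn
      exact h2 (by omega) rfl
    exact case_one hn3 (by ring) B hker
  · exact case_two hm2 hlt rfl B hker

end Pool.Agent.Results.MP_62b2e8_nt.RankLattices
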